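import Mathlib

/-!
# MP_3e19fa_lc: an improving response cycle with two empty nodes

A variety-seeking jump game on a connected graph with 11 nodes, with 9 agents of 4 types, has an
improving response cycle of length 24 (three rounds of eight moves).
-/

set_option autoImplicit false

namespace Pool.Agent.Results.MP_3e19fa_lc.TwoEmptyCycle

section Defs

variable {V A T : Type} [DecidableEq V] [Fintype A] [DecidableEq A] [Fintype T] [DecidableEq T]

/-- The utility of agent `i` in the assignment `σ`: the number of types other than the type of `i`
which occur among the agents on neighbours of the node of `i`. -/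
def utility (G : SimpleGraph V) [DecidableRel G.Adj] (τ : A → T) (σ : A → V) (i : A) : ℕ :=
  (Finset.univ.filter fun c : T => c ≠ τ i ∧ ∃ j : A, G.Adj (σ i) (σ j) ∧ τ j = c).card

/-- `σ'` arises from `σ` by an improving jump of one agent to an empty node. -/
def ImprovingJump (G : SimpleGraph V) [DecidableRel G.Adj] (τ : A → T) (σ σ' : A → V) : Prop :=
  ∃ (i : A) (w : V), (∀ j, σ j ≠ w) ∧ σ' = Function.update σ i w ∧
    utility G τ σ i < utility G τ σ' i

/-- The game has an improving response cycle: a cyclic sequence of assignments (injective maps from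
the agents to the nodes) and improving jumps. -/
def HasImprovingCycle (G : SimpleGraph V) [DecidableRel G.Adj] (τ : A → T) : Prop :=
  ∃ σ : A → V, Function.Injective σ ∧ Relation.TransGen (ImprovingJump G τ) σ σ

end Defs

/-- The edges. -/
def edges : List (Fin 11 × Fin 11) :=
  [(0, 5), (0, 6), (0, 7), (0, 9), (1, 2), (1, 10), (2, 3), (2, 8), (2, 9), (3, 4), (3, 7),
    (3, 10), (4, 8), (5, 6), (5, 8), (5, 10), (6, 7), (6, 9), (7, 9), (7, 10), (8, 9), (8, 10)]

/-- The graph. -/
def graph : SimpleGraph (Fin 11) where
  Adj a b := (a, b) ∈ edges ∨ (b, a) ∈ edges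
  symm := ⟨fun _ _ h => h.symm⟩
  loopless := ⟨by unfold edges; decide⟩

instance : DecidableRel graph.Adj := fun a b => by unfold graph; infer_instance

/-- The types of the agents. -/
def typ : Fin 9 → Fin 4 := ![0, 0, 0, 1, 1, 2, 2, 3, 3]

/-- The first assignment. -/
def start : Fin 9 → Fin 11 := ![0, 1, 4, 2, 9, 3, 8, 6, 7]

/-- The jumps. -/
def jumps : List (Fin 9 × Fin 11) :=
  [(3, 5), (6, 10), (7, 2), (4, 8), (5, 6), (8, 9), (3, 3), (6, 7), (7, 5), (4, 10), (5, 2),
    (8, 8), (3, 6), (6, 9), (7, 3), (4, 7), (5, 5), (8, 10), (3, 2), (6, 8), (7, 6), (4, 9),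
    (5, 3), (8, 7)]

/-- All the jumps of the list are improving. -/
def Good : (Fin 9 → Fin 11) → List (Fin 9 × Fin 11) → Prop
  | _, [] => True
  | σ, p :: l => (∀ j, σ j ≠ p.2) ∧
      utility graph typ σ p.1 < utility graph typ (Function.update σ p.1 p.2) p.1 ∧
      Good (Function.update σ p.1 p.2) l

instance decGood : ∀ (σ : Fin 9 → Fin 11) (l : List (Fin 9 × Fin 11)), Decidable (Good σ l)
  | _, [] => isTrue trivial
  | σ, p :: l => by
    unfold Good
    exact @instDecidableAnd _ _ _ (@instDecidableAnd _ _ _ (decGood _ l))

/-- The last assignment. -/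
def final : (Fin 9 → Fin 11) → List (Fin 9 × Fin 11) → (Fin 9 → Fin 11)
  | σ, [] => σ
  | σ, p :: l => final (Function.update σ p.1 p.2) l

theorem reflTransGen_of_good : ∀ (l : List (Fin 9 × Fin 11)) (σ : Fin 9 → Fin 11), Good σ l →
    Relation.ReflTransGen (ImprovingJump graph typ) σ (final σ l)
  | [], _, _ => .refl
  | p :: l, σ, h => by
    have h1 : ImprovingJump graph typ σ (Function.update σ p.1 p.2) :=
      ⟨p.1, p.2, h.1, rfl, h.2.1⟩
    exact .head h1 (reflTransGen_of_good l _ h.2.2)

theorem good_jumps : Good start jumps := by
  decide +kernel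

theorem final_jumps : final start jumps = start := by
  decide +kernel

/-- There is a connected graph with 11 nodes and a set of 9 agents of 4 types (all types occur),
so that exactly two nodes are empty, for which the variety-seeking jump game has an improving
response cycle. -/
theorem result : ∃ (G : SimpleGraph (Fin 11)) (_ : DecidableRel G.Adj) (τ : Fin 9 → Fin 4),
    G.Connected ∧ Function.Surjective τ ∧ HasImprovingCycle G τ := by
  refine ⟨graph, inferInstance, typ, ?_, by decide, start, by decide, ?_⟩
  · rw [SimpleGraph.connected_iff]
    refine ⟨?_, inferInstance⟩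
    have h0 : ∀ v, graph.Reachable 0 v := by
      have a : ∀ u v, (u, v) ∈ edges → graph.Reachable u v := fun u v h =>
        (show graph.Adj u v from Or.inl h).reachable
      have b : ∀ u v, (u, v) ∈ edges → graph.Reachable v u := fun u v h => (a u v h).symm
      have r5 := a 0 5 (by decide)
      have r6 := a 0 6 (by decide)
      have r7 := a 0 7 (by decide)
      have r9 := a 0 9 (by decide)
      have r2 := r9.trans (b 2 9 (by decide))
      have r8 := r9.trans (b 8 9 (by decide))
      have r3 := r7.trans (b 3 7 (by decide))
      have r10 := r7.trans (a 7 10 (by decide))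
      have r4 := r3.trans (a 3 4 (by decide))
      have r1 := r2.trans (b 1 2 (by decide))
      intro v
      fin_cases v
      · exact .refl 0
      · exact r1
      · exact r2
      · exact r3
      · exact r4
      · exact r5
      · exact r6
      · exact r7
      · exact r8
      · exact r9
      · exact r10
    exact fun u v => (h0 u).symm.trans (h0 v)
  · have h1 := reflTransGen_of_good jumps start good_jumps
    rw [final_jumps] at h1
    have h2 : ImprovingJump graph typ start (Function.update start 3 5) :=
      ⟨3, 5, good_jumps.1, rfl, good_jumps.2.1⟩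
    have h3 := reflTransGen_of_good jumps.tail _ good_jumps.2.2
    have h4 : final (Function.update start 3 5) jumps.tail = start := final_jumps
    rw [show (Function.update start 3 5) = Function.update start (jumps.head (by decide)).1
      (jumps.head (by decide)).2 from rfl] at h4 h2
    exact Relation.TransGen.head' h2 (by
      have := reflTransGen_of_good jumps.tail _ good_jumps.2.2
      rw [show final _ jumps.tail = start from final_jumps] at this
      exact this)

end Pool.Agent.Results.MP_3e19fa_lc.TwoEmptyCycle
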